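import Pool.Agent.HUK.Stmts

/-! HUK, row EXS: from windows to segments. -/

set_option autoImplicit false

namespace Pool.Agent.HUK.H68

open Polynomial Pool.Agent.MTN

/-- the coefficients of a translated polynomial -/
theorem shift_coeff (m κ X B : ℕ) (hκ : κ ≤ X) (hX : 1 ≤ X) (p : ℤ[X]) (hp : p.natDegree ≤ m)
    (hb : ∀ i, |p.coeff i| ≤ (B : ℤ)) (i : ℕ) :
    |(p.comp (Polynomial.X - C (κ : ℤ))).coeff i| ≤ ((m + 1) * (B * (2 ^ m * X ^ m)) : ℕ) := by
  rw [Polynomial.comp, Polynomial.eval₂_eq_sum_range' (n := m + 1) (hn := by omega),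
    Polynomial.finsetSum_coeff]
  refine (Finset.abs_sum_le_sum_abs _ _).trans ?_
  have h1 : ∀ j ∈ Finset.range (m + 1),
      |(C (p.coeff j) * (Polynomial.X - C (κ : ℤ)) ^ j : ℤ[X]).coeff i| ≤
        ((B * (2 ^ m * X ^ m) : ℕ) : ℤ) := by
    intro j hj
    have hjm : j ≤ m := by
      have := Finset.mem_range.1 hj
      omega
    have e1 : (Polynomial.X - C (κ : ℤ) : ℤ[X]) = Polynomial.X + C (-(κ : ℤ)) := by
      rw [map_neg, sub_eq_add_neg]
    rw [Polynomial.coeff_C_mul, e1, Polynomial.coeff_X_add_C_pow, abs_mul, abs_mul, abs_pow, abs_neg,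
      Nat.abs_cast, Nat.abs_cast]
    push_cast
    refine mul_le_mul (hb j) ?_ (by positivity) (by positivity)
    rw [mul_comm]
    have e2 : (j.choose i) ≤ 2 ^ m :=
      (Nat.choose_le_two_pow _ _).trans (Nat.pow_le_pow_right (by norm_num) hjm)
    have e3 : κ ^ (j - i) ≤ X ^ m :=
      (Nat.pow_le_pow_left hκ _).trans (Nat.pow_le_pow_right hX (by omega))
    exact_mod_cast Nat.mul_le_mul e2 e3
  refine (Finset.sum_le_sum h1).trans (le_of_eq ?_)
  rw [Finset.sum_const, Finset.card_range, nsmul_eq_mul]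
  push_cast
  ring

/-- a set of naturals of small diameter -/
theorem card_diam (T : Finset ℕ) (D : ℝ) (hD : 0 ≤ D)
    (h : ∀ i ∈ T, ∀ j ∈ T, (i : ℝ) - j < D) : (T.card : ℝ) ≤ D + 1 := by
  rcases T.eq_empty_or_nonempty with rfl | hT
  · simp only [Finset.card_empty, Nat.cast_zero]
    linarith only [hD]
  · have h1 : T ⊆ Finset.Ico (T.min' hT) (T.min' hT + ⌈D⌉₊) := by
      intro i hi
      rw [Finset.mem_Ico]
      refine ⟨T.min'_le i hi, ?_⟩
      have h2 := h i hi _ (T.min'_mem hT)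
      have h3 : (i : ℝ) < ((T.min' hT + ⌈D⌉₊ : ℕ) : ℝ) := by
        push_cast
        have := Nat.le_ceil D
        linarith only [h2, this]
      exact_mod_cast h3
    have h2 := Finset.card_le_card h1
    rw [Nat.card_Ico, Nat.add_sub_cancel_left] at h2
    have h3 : (T.card : ℝ) ≤ ⌈D⌉₊ := by exact_mod_cast h2
    exact h3.trans (Nat.ceil_lt_add_one hD).le

/-- blocks -/
theorem card_blocks (T : Finset ℕ) (X M C : ℕ) (hM : 1 ≤ M) (hT : ∀ κ ∈ T, κ < X)
    (h : ∀ κ ∈ T, (T.filter fun κ' => κ' ≤ κ ∧ κ < κ' + M).card ≤ C) :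
    T.card ≤ C * (X / M + 1) := by
  classical
  have h1 : T.card ≤ C * (T.image (fun κ => κ / M)).card := by
    refine Finset.card_le_mul_card_image _ _ fun b hb => ?_
    obtain ⟨κ0, hκ0, hb0⟩ := Finset.mem_image.1 hb
    have hne : (T.filter fun κ => κ / M = b).Nonempty := ⟨κ0, Finset.mem_filter.2 ⟨hκ0, hb0⟩⟩
    obtain ⟨κ1, hκ1, hmax⟩ := Finset.exists_max_image _ (fun κ => κ) hne
    rw [Finset.mem_filter] at hκ1
    refine le_trans (Finset.card_le_card ?_) (h κ1 hκ1.1)
    intro κ hκ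
    have hκm := hmax κ hκ
    rw [Finset.mem_filter] at hκ ⊢
    refine ⟨hκ.1, hκm, ?_⟩
    have e1 : κ1 < M * (κ1 / M) + M := by
      have := Nat.lt_mul_div_succ κ1 (show 0 < M by omega)
      rw [Nat.mul_add, Nat.mul_one] at this
      exact this
    have e2 : M * (κ / M) ≤ κ := Nat.mul_div_le κ M
    rw [hκ1.2] at e1
    rw [hκ.2] at e2
    omega
  refine h1.trans (Nat.mul_le_mul_left _ ?_)
  have h2 : T.image (fun κ => κ / M) ⊆ Finset.range (X / M + 1) := by
    intro b hb
    obtain ⟨κ0, hκ0, hb0⟩ := Finset.mem_image.1 hb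
    rw [Finset.mem_range, ← hb0]
    have : κ0 / M ≤ X / M := Nat.div_le_div_right (hT κ0 hκ0).le
    omega
  have h3 := Finset.card_le_card h2
  rwa [Finset.card_range] at h3

/-- EXS -/
theorem exs : ExsStmt := by
  intro C α S hC hwin m A
  classical
  obtain ⟨A', hA'⟩ : ∃ A', A' = 2 * (m + A) + 1 := ⟨_, rfl⟩
  obtain ⟨a, ha⟩ : ∃ a, a = α m A' + 1 := ⟨_, rfl⟩
  have ha1 : (1 : ℝ) ≤ a := by
    rw [ha]
    push_cast
    linarith only [Nat.cast_nonneg (α := ℝ) (α m A')]
  obtain ⟨X0, hX0⟩ : ∃ X0, X0 = ((m + 1) * 2 ^ m) ^ 2 := ⟨_, rfl⟩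
  refine ⟨2 * C ^ 2 + C + 3 + 4 * C + X0, 1 / (2 * a), by positivity, ?_⟩
  intro X hX x hx
  have hXr : (1 : ℝ) ≤ X := by exact_mod_cast hX
  have hXpos : (0 : ℝ) < X := by linarith only [hXr]
  have hCr : (1 : ℝ) ≤ C := by exact_mod_cast hC
  obtain ⟨r, hr⟩ : ∃ r : ℝ, r = (X : ℝ) ^ (1 / (2 * (a : ℝ))) := ⟨_, rfl⟩
  have hr1 : 1 ≤ r := by
    rw [hr]
    exact Real.one_le_rpow hXr (by positivity)
  have hr0 : 0 < r := by linarith only [hr1]
  rw [Real.rpow_sub hXpos, Real.rpow_one, ← hr]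
  have hrX : r ≤ X := by
    rw [hr]
    have f1 : (X : ℝ) ^ (1 / (2 * (a : ℝ))) ≤ (X : ℝ) ^ (1 : ℝ) := by
      apply Real.rpow_le_rpow_of_exponent_le hXr
      rw [div_le_one (by positivity)]
      linarith only [ha1]
    rwa [Real.rpow_one] at f1
  have hXr1 : 1 ≤ (X : ℝ) / r := by rwa [one_le_div hr0]
  -- the set
  obtain ⟨T, hT⟩ : ∃ T : Finset ℕ, T = (Finset.range X).filter (fun κ : ℕ => x + (κ : ℂ) ∈ S) := ⟨_, rfl⟩
  have hTm : ∀ κ, κ ∈ T ↔ κ < X ∧ x + (κ : ℂ) ∈ S := by
    intro κ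
    rw [hT, Finset.mem_filter, Finset.mem_range]
  rw [Nat.subtype_card T hTm]
  have htriv : (T.card : ℝ) ≤ X := by
    have : T.card ≤ (Finset.range X).card := by
      rw [hT]
      exact Finset.card_filter_le _ _
    rw [Finset.card_range] at this
    exact_mod_cast this
  have hXe : (X : ℝ) = r * (X / r) := by field_simp
  by_cases hsm : r < 4 * C ∨ (X : ℝ) < X0
  · -- the trivial case
    have h1 : (X : ℝ) ≤ (4 * C + X0) * (X / r) := by
      rcases hsm with h | h
      · have : r * ((X : ℝ) / r) ≤ (4 * C + X0) * (X / r) := by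
          refine mul_le_mul_of_nonneg_right ?_ (by positivity)
          have : (0 : ℝ) ≤ X0 := by positivity
          linarith only [h, this]
        rwa [← hXe] at this
      · have h2 : (X0 : ℝ) * 1 ≤ (4 * C + X0) * (X / r) := by
          refine mul_le_mul ?_ hXr1 (by positivity) (by positivity)
          linarith only [hCr]
        linarith only [h, h2]
    refine (htriv.trans h1).trans ?_
    refine mul_le_mul_of_nonneg_right ?_ (by positivity)
    push_cast
    nlinarith only [hCr]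
  · -- the main case
    rw [not_or, not_lt, not_lt] at hsm
    obtain ⟨hsm1, hsm2⟩ := hsm
    obtain ⟨h, hh⟩ : ∃ h : ℝ, h = Real.sqrt X := ⟨_, rfl⟩
    have hhh : h * h = X := by
      rw [hh]
      exact Real.mul_self_sqrt hXpos.le
    have hh0 : 0 < h := by
      rw [hh]
      exact Real.sqrt_pos.2 hXpos
    have hrα : r ^ a = h := by
      rw [hr, ← Real.rpow_natCast, ← Real.rpow_mul hXpos.le, hh, Real.sqrt_eq_rpow]
      congr 1
      field_simp
    have hrh : r ≤ h := by
      rw [← hrα]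
      exact le_self_pow₀ hr1 (by omega)
    obtain ⟨M, hM1, hM2, hM3⟩ : ∃ M : ℕ, 1 ≤ M ∧ (C : ℝ) * (M + 1) ≤ r ∧ r ≤ 2 * C * M := by
      have hCpos : (0 : ℝ) < C := by linarith only [hCr]
      have e1 : 4 ≤ r / C := by
        rw [le_div_iff₀ hCpos]
        exact hsm1
      have e2 : (⌊r / C⌋₊ : ℝ) ≤ r / C := Nat.floor_le (by positivity)
      have e3 : r / C < ⌊r / C⌋₊ + 1 := Nat.lt_floor_add_one _
      have e4 : 4 ≤ ⌊r / C⌋₊ := Nat.le_floor (by exact_mod_cast e1)
      obtain ⟨M, hM⟩ : ∃ M : ℕ, ⌊r / C⌋₊ = M + 1 := ⟨⌊r / C⌋₊ - 1, by omega⟩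
      rw [hM] at e2 e3 e4
      push_cast at e2 e3
      refine ⟨M, by omega, ?_, ?_⟩
      · rw [le_div_iff₀ hCpos] at e2
        linarith only [e2]
      · have e5 : r / C ≤ 2 * M := by
          have : (3 : ℝ) ≤ M := by
            have : 3 ≤ M := by omega
            exact_mod_cast this
          linarith only [e3, this]
        rw [div_le_iff₀ hCpos] at e5
        linarith only [e5]
    -- the points are points
    have hpt : ∀ κ : ℕ, κ < X → h ≤ ‖x + (κ : ℂ)‖ → x + (κ : ℂ) ∈ Pts m A' := by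
      intro κ hκ hn
      obtain ⟨p, hpm, hpd, hpb, hpx⟩ := hx
      refine ⟨p.comp (Polynomial.X - Polynomial.C (κ : ℤ)), ?_, ?_, ?_, ?_⟩
      · refine (hpm.comp (Polynomial.monic_X_sub_C _) ?_).ne_zero
        rw [Polynomial.natDegree_X_sub_C]
        norm_num
      · refine Polynomial.natDegree_comp_le.trans ?_
        rw [Polynomial.natDegree_X_sub_C, mul_one]
        exact hpd
      · intro i
        have e1 := shift_coeff m κ X (X ^ A) hκ.le hX p hpd hpb i
        have e2 : (|(((p.comp (Polynomial.X - Polynomial.C (κ : ℤ))).coeff i : ℤ) : ℝ)|) ≤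
            (((m + 1) * (X ^ A * (2 ^ m * X ^ m)) : ℕ) : ℝ) := by
          rw [← Int.cast_abs]
          exact_mod_cast e1
        refine e2.trans ?_
        have e3 : ((m + 1) * 2 ^ m : ℝ) ≤ h := by
          rw [hh]
          refine Real.le_sqrt_of_sq_le ?_
          have : ((X0 : ℕ) : ℝ) = ((m + 1) * 2 ^ m) ^ 2 := by
            rw [hX0]
            push_cast
            ring
          rw [← this]
          exact hsm2
        have e4 : (((m + 1) * (X ^ A * (2 ^ m * X ^ m)) : ℕ) : ℝ) ≤ h ^ A' := by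
          calc (((m + 1) * (X ^ A * (2 ^ m * X ^ m)) : ℕ) : ℝ)
              = ((m + 1) * 2 ^ m) * (X : ℝ) ^ (m + A) := by
                push_cast
                ring
            _ ≤ h * (X : ℝ) ^ (m + A) := mul_le_mul_of_nonneg_right e3 (by positivity)
            _ = h ^ A' := by
                rw [hA', ← hhh]
                ring
        exact e4.trans (pow_le_pow_left₀ hh0.le hn _)
      · rw [Polynomial.aeval_comp]
        have h5 : Polynomial.aeval (x + (κ : ℂ)) (Polynomial.X - Polynomial.C (κ : ℤ) : ℤ[X]) = x := by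
          simp
        rw [h5, hpx]
    -- the small part
    obtain ⟨T1, hT1⟩ : ∃ T1 : Finset ℕ, T1 = T.filter (fun κ : ℕ => ‖x + (κ : ℂ)‖ < h) := ⟨_, rfl⟩
    obtain ⟨T2, hT2⟩ : ∃ T2 : Finset ℕ, T2 = T.filter (fun κ : ℕ => ¬ ‖x + (κ : ℂ)‖ < h) := ⟨_, rfl⟩
    have hsum : T1.card + T2.card = T.card := by
      rw [hT1, hT2]
      exact Finset.card_filter_add_card_filter_not _
    have hc1 : (T1.card : ℝ) ≤ 2 * h + 1 := by
      refine card_diam T1 (2 * h) (by positivity) fun i hi j hj => ?_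
      rw [hT1, Finset.mem_filter] at hi hj
      have e1 := (Complex.abs_re_le_norm _).trans_lt hi.2
      have e2 := (Complex.abs_re_le_norm _).trans_lt hj.2
      rw [Complex.add_re, Complex.natCast_re, abs_lt] at e1 e2
      linarith only [e1.1, e1.2, e2.1, e2.2]
    have hc2 : T2.card ≤ C * (X / M + 1) := by
      refine card_blocks T2 X M C hM1 ?_ ?_
      · intro κ hκ
        rw [hT2, Finset.mem_filter] at hκ
        exact ((hTm κ).1 hκ.1).1
      · intro κ hκ
        rw [hT2, Finset.mem_filter, not_lt] at hκ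
        obtain ⟨hκT, hκn⟩ := hκ
        obtain ⟨hκX, hκS⟩ := (hTm κ).1 hκT
        have hw := hpt κ hκX hκn
        have hbig : ((C : ℝ) * (M + 1)) ^ α m A' ≤ ‖x + (κ : ℂ)‖ := by
          have e1 : (1 : ℝ) ≤ C * (M + 1) := by
            have : (0 : ℝ) ≤ M := by positivity
            nlinarith only [hCr, this]
          calc ((C : ℝ) * (M + 1)) ^ α m A' ≤ ((C : ℝ) * (M + 1)) ^ a :=
                pow_le_pow_right₀ e1 (by omega)
            _ ≤ r ^ a := pow_le_pow_left₀ (by positivity) hM2 _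
            _ = h := hrα
            _ ≤ _ := hκn
        have hc := hwin m A' M _ hw hbig
        refine le_trans ?_ hc
        obtain ⟨U, hU⟩ : ∃ U : Finset ℕ,
            U = (Finset.range M).filter (fun j : ℕ => x + (κ : ℂ) - (j : ℂ) ∈ S) := ⟨_, rfl⟩
        have hUm : ∀ j, j ∈ U ↔ j < M ∧ x + (κ : ℂ) - (j : ℂ) ∈ S := by
          intro j
          rw [hU, Finset.mem_filter, Finset.mem_range]
        rw [Nat.subtype_card U hUm]
        refine Finset.card_le_card_of_injOn (fun κ' => κ - κ') ?_ ?_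
        · intro κ' hκ'
          rw [Finset.mem_coe, Finset.mem_filter] at hκ'
          obtain ⟨h1, h2, h3⟩ := hκ'
          rw [hT2, Finset.mem_filter] at h1
          have h4 := ((hTm κ').1 h1.1).2
          rw [Finset.mem_coe, hUm]
          refine ⟨(Nat.sub_lt_iff_lt_add' h2).2 (by omega), ?_⟩
          have h5 : x + (κ : ℂ) - ((κ - κ' : ℕ) : ℂ) = x + (κ' : ℂ) := by
            rw [Nat.cast_sub h2]
            ring
          rw [h5]
          exact h4
        · intro κ1 h1 κ2 h2 h3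
          rw [Finset.mem_coe, Finset.mem_filter] at h1 h2
          simp only at h3
          omega
    have hc3 : (T2.card : ℝ) ≤ C * (2 * C * (X / r) + 1) := by
      have e1 : (T2.card : ℝ) ≤ C * (((X / M : ℕ) : ℝ) + 1) := by exact_mod_cast hc2
      refine e1.trans (mul_le_mul_of_nonneg_left ?_ (by positivity))
      have e2 : ((X / M : ℕ) : ℝ) ≤ (X : ℝ) / M := Nat.cast_div_le
      have e3 : (X : ℝ) / M ≤ 2 * C * (X / r) := by
        have hMpos : (0 : ℝ) < M := by exact_mod_cast hM1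
        rw [div_le_iff₀ hMpos]
        calc (X : ℝ) = r * (X / r) := hXe
          _ ≤ (2 * C * M) * (X / r) := mul_le_mul_of_nonneg_right hM3 (by positivity)
          _ = _ := by ring
      linarith only [e2, e3]
    have hhr : h ≤ X / r := by
      rw [le_div_iff₀ hr0, ← hhh]
      exact mul_le_mul_of_nonneg_left hrh hh0.le
    have hTr : (T.card : ℝ) = T1.card + T2.card := by
      rw [← hsum]
      push_cast
      ring
    rw [hTr]
    push_cast
    obtain ⟨Y, hY⟩ : ∃ Y : ℝ, Y = (X : ℝ) / r := ⟨_, rfl⟩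
    rw [← hY] at hc3 hhr hXr1 ⊢
    have e5 : (0 : ℝ) ≤ X0 * Y := by positivity
    have e6 : (C : ℝ) * 1 ≤ C * Y := mul_le_mul_of_nonneg_left hXr1 (by positivity)
    nlinarith only [hc1, hc3, hhr, hXr1, e5, e6, hCr]

end Pool.Agent.HUK.H68
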