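import Pool.Agent.HUK.Stmts
import Pool.Agent.Helper55_HIK.RES
import Pool.Agent.Helper45_HIK.DEK

/-! HUK, row REU: a fixed element has its value in the field generated by the point and the
coefficients. -/

set_option autoImplicit false

namespace Pool.Agent.HUK.H68

open Polynomial NumberField Pool.Agent.MTL Pool.Agent.MTL.H34 Pool.Agent.HIK Pool.Agent.HIK.H55R

/-- REU -/
theorem reu' (hdek : DekStmt) : ReuStmt := by
  intro k _ _ φ π x g hg hx hfix
  -- the embedding of `k` in `BB`
  have hmem : ∀ c : k, φ c ∈ BB := fun c => mem_BB_of_isIntegral (isIntegral_phi φ c)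
  obtain ⟨ι, hι⟩ : ∃ ι : k →+* BB, ∀ c, ((ι c : BB) : Om) = φ c :=
    ⟨φ.codRestrict BB hmem, fun c => rfl⟩
  obtain ⟨α, hα⟩ : ∃ α : QB, α = π (algebraMap ℚ[X] BB X) := ⟨_, rfl⟩
  obtain ⟨ψ, hψ⟩ : ∃ ψ : k →+* QB, ψ = π.comp ι := ⟨_, rfl⟩
  have hιπ : ∀ c, π (ι c) = ψ c := by
    intro c
    rw [hψ]
    rfl
  -- the polynomials as elements of `BB`
  obtain ⟨zb, hzb⟩ : ∃ zb : (𝓞 k)[X] →+* BB, zb =
      eval₂RingHom (ι.comp (algebraMap (𝓞 k) k)) (algebraMap ℚ[X] BB X) := ⟨_, rfl⟩
  have hzc : (algebraMap BB Om).comp zb = zph φ := by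
    rw [hzb]
    refine Polynomial.ringHom_ext ?_ ?_
    · intro c
      simp only [RingHom.comp_apply, coe_eval₂RingHom, eval₂_C, zph]
      exact hι _
    · simp only [RingHom.comp_apply, coe_eval₂RingHom, eval₂_X, zph, tt]
      rfl
  have hzπ : π.comp zb = eval₂RingHom (ψ.comp (algebraMap (𝓞 k) k)) α := by
    rw [hzb]
    refine Polynomial.ringHom_ext ?_ ?_
    · intro c
      simp only [RingHom.comp_apply, coe_eval₂RingHom, eval₂_C]
      exact hιπ _
    · simp only [RingHom.comp_apply, coe_eval₂RingHom, eval₂_X]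
      exact hα.symm
  -- `x` is in `BB`
  have hxB : x ∈ BB := by
    have h1 : IsIntegral BB x := by
      refine ⟨g.map zb, hg.map _, ?_⟩
      rw [eval₂_map, hzc]
      exact hx
    exact isIntegral_trans (R := ℚ[X]) (A := BB) x h1
  obtain ⟨xb, rfl⟩ : ∃ xb : BB, (xb : Om) = x := ⟨⟨x, hxB⟩, rfl⟩
  have hx0 : g.eval₂ zb xb = 0 := by
    apply Subtype.ext
    have h1 : (algebraMap BB Om) (g.eval₂ zb xb) = 0 := by
      rw [hom_eval₂, hzc]
      exact hx
    exact h1
  -- the value is fixed by the Galois group of the field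
  have hfix2 : ∀ τ : GQ, τ α = α → (∀ c : k, τ (ψ c) = ψ c) → τ (π xb) = π xb := by
    intro τ hτa hτ
    obtain ⟨-, hd⟩ := hdek α π hα.symm
    obtain ⟨σ, hσ⟩ := hd τ hτa
    have h1 : σ ∈ decG π := ⟨τ, hσ⟩
    have h2 : σ ∈ Gph φ := by
      intro c
      have h3 : σ • (ι c) = ι c := by
        refine eq_of_pi_eq π ?_ ?_ ?_
        · have h4 : ((σ • (ι c) : BB) : Om) = σ (φ c) := by
            rw [← hι c]
            rfl
          rw [h4]
          exact isIntegral_sigma σ (isIntegral_phi φ c)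
        · rw [hι]
          exact isIntegral_phi φ c
        · rw [hσ, hιπ, hτ]
      have h5 := congrArg (fun b : BB => (b : Om)) h3
      have h6 : σ (((ι c : BB)) : Om) = ((ι c : BB) : Om) := h5
      rw [hι] at h6
      exact h6
    have h7 : σ • xb = xb := Subtype.ext (hfix σ h1 h2)
    rw [← hσ xb, h7]
  -- so it is in the field
  have : IsAlgClosure ℚ (AlgebraicClosure ℚ) := isAlgClosure_rat _
  have : Normal ℚ (AlgebraicClosure ℚ) := IsAlgClosure.normal ℚ (AlgebraicClosure ℚ)
  have : IsGalois ℚ (AlgebraicClosure ℚ) := IsGalois.mk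
  have hk : π xb ∈ IntermediateField.adjoin ℚ (insert α (Set.range ψ)) := by
    have h1 : π xb ∈ IntermediateField.fixedField
        (IntermediateField.adjoin ℚ (insert α (Set.range ψ))).fixingSubgroup := by
      rw [IntermediateField.mem_fixedField_iff]
      intro τ hτ
      refine hfix2 τ ?_ fun c => ?_
      · exact (IntermediateField.mem_fixingSubgroup_iff _ _).1 hτ α
          (IntermediateField.subset_adjoin _ _ (Set.mem_insert _ _))
      · exact (IntermediateField.mem_fixingSubgroup_iff _ _).1 hτ (ψ c)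
          (IntermediateField.subset_adjoin _ _ (Set.mem_insert_of_mem _ ⟨c, rfl⟩))
    rwa [InfiniteGalois.fixedField_fixingSubgroup] at h1
  rw [← hα]
  refine ⟨ψ, π xb, hk, ?_⟩
  have h2 := congrArg π hx0
  rw [hom_eval₂, map_zero, hzπ] at h2
  have h3 : (evalRingHom α).comp (mapRingHom (ψ.comp (algebraMap (𝓞 k) k))) =
      eval₂RingHom (ψ.comp (algebraMap (𝓞 k) k)) α := by
    refine Polynomial.ringHom_ext ?_ ?_
    · intro c
      simp only [RingHom.comp_apply, coe_evalRingHom, coe_mapRingHom, map_C, eval_C,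
        coe_eval₂RingHom, eval₂_C]
    · simp only [RingHom.comp_apply, coe_evalRingHom, coe_mapRingHom, map_X, eval_X,
        coe_eval₂RingHom, eval₂_X]
  rw [← h3] at h2
  rw [evalEval, eval_map]
  have h4 := hom_eval₂ g (mapRingHom (ψ.comp (algebraMap (𝓞 k) k))) (evalRingHom α) (C (π xb))
  rw [coe_evalRingHom, eval_C] at h4
  exact h4.trans h2

/-- REU -/
theorem reu : ReuStmt := reu' Pool.Agent.HIK.H45.dek

end Pool.Agent.HUK.H68
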